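import Pool.Agent.WR2.StmtsB

set_option autoImplicit false

/-!
# WR2, row LIV: every path crosses the level (helper85)
-/

namespace Pool.Agent.WR2.H85

open Pool.Agent.WR2

theorem liv (lg2 : Lg2Stmt) : LivStmt := by
  intro k l1 y r hk hy hr hkr hK
  obtain ⟨h1, h2⟩ := lg2
  have hmono : Monotone k := monotone_nat_of_le_succ fun s => (hk s).1
  -- the level function
  obtain ⟨G, hG⟩ : ∃ G : ℕ → ℕ, ∀ s, G s = Nat.log 2 (3 ^ (l1 + k s)) - Nat.log 2 (3 ^ l1) :=
    ⟨_, fun _ => rfl⟩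
  have hGm : Monotone G := by
    intro s s' hs
    rw [hG, hG]
    have h3 := hmono hs
    have h4 : Nat.log 2 (3 ^ (l1 + k s)) ≤ Nat.log 2 (3 ^ (l1 + k s')) :=
      Nat.log_mono_right (Nat.pow_le_pow_right (by norm_num) (by omega))
    omega
  have hGu : ∀ s, G s ≤ Nat.log 2 (3 ^ k s) + 1 := by
    intro s
    rw [hG]
    have h3 := (h2 l1 (k s)).2
    omega
  have hGl : ∀ s, Nat.log 2 (3 ^ k s) ≤ G s := by
    intro s
    rw [hG]
    have h3 := (h2 l1 (k s)).1
    omega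
  have hend : y + G (7 * (y + 1)) ≤ 7 * (y + 1) := by
    have h3 := hGu (7 * (y + 1))
    have h4 := (h1 (k (7 * (y + 1)))).2.2.1
    omega
  have hex : ∃ s, 3 * r ≤ s ∧ y + G s ≤ s := ⟨7 * (y + 1), by omega, hend⟩
  classical
  obtain ⟨hs1, hs2⟩ := Nat.find_spec hex
  have hs3 : Nat.find hex ≤ 7 * (y + 1) := Nat.find_min' hex ⟨by omega, hend⟩
  have hmin : ∀ m, m < Nat.find hex → ¬ (3 * r ≤ m ∧ y + G m ≤ m) :=
    fun m hm => Nat.find_min hex hm
  generalize Nat.find hex = s at hs1 hs2 hs3 hmin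
  have hs4 : y + G s = s := by
    rcases Nat.lt_or_ge (3 * r) s with h | h
    · have h3 := hmin (s - 1) (by omega)
      have h4 : y + G (s - 1) > s - 1 := by
        by_contra hcon
        exact h3 ⟨by omega, by omega⟩
      have h5 : G (s - 1) ≤ G s := hGm (by omega)
      omega
    · omega
  have hM : M2 l1 y (k s) = s := by
    unfold M2
    rw [← hG]
    exact hs4
  have hks : k s ≤ k (7 * (y + 1)) := hmono hs3
  refine ⟨k s, ?_, by rw [hM]⟩
  unfold RS
  rw [Finset.mem_filter, Finset.mem_range, hM]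
  refine ⟨by omega, ?_, hs3, ?_⟩
  · exact hkr.trans (hmono hs1)
  · have h3 := hGl s
    have h4 := (h1 (k s)).2.2.2
    omega

end Pool.Agent.WR2.H85
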